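import Pool.Agent.H8.BIG.Core1

/-!
# Theorem BA: polynomial maps of large topological degree
-/

set_option autoImplicit false

open MvPolynomial
open Pool.Agent.H12.ZD (pmap v O Res DenseOrbit NoInv)
open Pool.Agent.H18.HIT Pool.Agent.H8.BIG
open Pool.Agent.H8.HIT Pool.Agent.H8.P2

namespace Pool.Agent.H10.BIG

theorem bern (m j : ℕ) : m ^ j * (m + j) ≤ m * (m + 1) ^ j := by
  induction j with
  | zero => simp
  | succ j ih =>
    have h1 : m ^ j ≤ (m + 1) ^ j := Nat.pow_le_pow_left (Nat.le_succ m) j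
    calc m ^ (j + 1) * (m + (j + 1)) = m * (m ^ j * (m + j)) + m * m ^ j := by ring
      _ ≤ m * (m * (m + 1) ^ j) + m * (m + 1) ^ j :=
        Nat.add_le_add (Nat.mul_le_mul_left _ ih) (Nat.mul_le_mul_left _ h1)
      _ = m * (m + 1) ^ (j + 1) := by ring

theorem no_growth (m r k : ℕ) (hk : 1 ≤ k)
    (h : ∀ i : ℕ, (m + 1) ^ (k * i) ≤ m ^ (k * i) * r) : False := by
  obtain ⟨j, hj⟩ : ∃ j, j = k * (r * m + 1) := ⟨_, rfl⟩
  have h1 := h (r * m + 1)
  rw [← hj] at h1
  have hjr : r * m + 1 ≤ j := by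
    rw [hj]
    exact Nat.le_mul_of_pos_left _ hk
  rcases Nat.eq_zero_or_pos m with h0 | h0
  · subst h0
    rw [zero_pow (by omega), zero_mul] at h1
    have : 0 < (0 + 1) ^ j := by positivity
    omega
  · have h2 := bern m j
    have h3 : m ^ j * (m + j) ≤ m ^ j * (m * r) := by
      refine h2.trans ((Nat.mul_le_mul_left m h1).trans (le_of_eq ?_))
      ring
    have h4 := Nat.le_of_mul_le_mul_left h3 (pow_pos h0 j)
    have h5 : m * r = r * m := Nat.mul_comm _ _
    omega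

theorem Lp_deg {N : ℕ} (p : Nat.Primes) (a : Fin N → O p) (i : Fin N) :
    (Lp p a i).totalDegree ≤ 1 := by
  unfold Lp
  refine (totalDegree_add _ _).trans (max_le ?_ ?_)
  · rw [totalDegree_C]
    exact Nat.zero_le _
  · refine (totalDegree_mul _ _).trans ?_
    rw [totalDegree_C, totalDegree_X]

theorem Lm_deg {N : ℕ} (p : Nat.Primes) (a : Fin N → O p) (i : Fin N) :
    (Lm p a i).totalDegree ≤ 1 := by
  unfold Lm
  refine (totalDegree_mul _ _).trans ?_
  rw [totalDegree_C, zero_add]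
  refine (totalDegree_sub _ _).trans (max_le ?_ ?_)
  · rw [totalDegree_X]
  · rw [totalDegree_C]
    exact Nat.zero_le _

theorem pf_BA (hMUL : T_MUL) (hLNA : T_LNA) (hNRM : T_NRM) (hFIB : T_FIB) (hKKI : T_KKI)
    (hKKC : T_KKC) : T_BA := by
  intro N f b e n m hcov hn hKK hme hb
  have he : 1 ≤ e := by
    rw [Nat.one_le_iff_ne_zero]
    intro h0
    rw [h0, zero_pow (by omega)] at hme
    omega
  obtain ⟨p, k, a, H, hp, hk, hcovG, hinj, hdegG, hconj, hav⟩ := setup f b e he hcov hb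
  obtain ⟨θ, Φ, Δ, R, hprim⟩ := All.pel N Qb (flQ p H) hinj
  have hE : e ^ k ≤ Φ.natDegree := All.cvp N Qb (flQ p H) (e ^ k) θ Φ Δ R hinj hcovG hprim
  obtain ⟨cG, hcG0, hcG⟩ := All.cve N Qb (flQ p H) θ Φ Δ R hinj hprim
  obtain ⟨z, P, hzc, hzΔ, hP, hPvan, hgal, hI⟩ := core1 p hp H hinj hprim cG hcG0
  refine ⟨lam p a (cO z), fun n => hav n z, ?_⟩
  apply dense_of_conj f p k a H hconj
  by_contra hne
  obtain ⟨S, hS, hS0⟩ := Submodule.exists_mem_ne_zero_of_ne_bot hne
  have hSz : eval (cO z) S = 0 := hS 0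
  have hr : 1 ≤ S.totalDegree := by
    rw [Nat.one_le_iff_ne_zero]
    intro h0
    rw [totalDegree_eq_zero_iff_eq_C] at h0
    rw [h0, eval_C] at hSz
    apply hS0
    rw [h0, hSz, C_0]
  have hprime : (van (flQ p H) (cO z)).IsPrime := All.prm N p H z hp
  have hΔI : Δ ∉ van (flQ p H) (cO z) := fun h0 => hzΔ (h0 0)
  have hΔ' : aeval (flQ p H) Δ ∉ van (flQ p H) (cO z) := fun h0 => hΔI (star hprim hI h0)
  have hq0 : Δ * jac (flQ p H) ∉ van (flQ p H) (cO z) := by
    intro h0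
    rcases hprime.mem_or_mem h0 with h1 | h1
    · exact hΔI h1
    · exact jac_fl_ne p H z (h1 0)
  have hnrm := hNRM N Qb (flQ p H) θ Φ Δ R (van (flQ p H) (cO z)) hprim hprime
    (fun c hc => van_aeval hc) hΔ' hI
  have hfib := hFIB N Qb (flQ p H) (van (flQ p H) (cO z)) Φ.natDegree cG (Δ * jac (flQ p H))
    hprime hnrm (fun h0 => hzc (h0 0)) hcG hq0
  have hconjT : ∀ z, pmap (it f k) (lam p a z) = lam p a (pmap (flQ p H) z) := by
    intro z
    rw [pmap_it]
    exact hconj z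
  refine no_growth m S.totalDegree k hk fun i => ?_
  -- the condition on the images
  have hKG : KK (it (flQ p H) (n * i)) (m ^ (k * i)) := by
    have h1 := hKKI N Qb (it f n) m (k * i) hKK
    have h2 : it (it f n) (k * i) = it (it f k) (n * i) := by
      rw [it_mul, it_mul]
      congr 1
      ring
    rw [h2] at h1
    refine hKKC N Qb (it (it f k) (n * i)) (it (flQ p H) (n * i)) (Lp p a) (Lm p a) (m ^ (k * i))
      (Lp_deg p a) (Lm_deg p a) (comp_Lm_Lp p a) (comp_Lp_Lm p a) (comp_conj fun w => ?_) h1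
    rw [pmap_it, pmap_it, iter_conj hconjT]
  obtain ⟨c, hcI, hc⟩ := hfib (n * i)
  obtain ⟨m', hm'⟩ : ∃ m', eval ((pmap (flQ p H))^[m'] (cO z)) c ≠ 0 := by
    by_contra hcon
    push Not at hcon
    exact hcI hcon
  obtain ⟨Sf, hcard, hSf⟩ := hc _ hm'
  have hV : ∀ x ∈ Sf, ∀ q ∈ van (flQ p H) (cO z), eval x q = 0 := by
    intro x hx
    have h1 := tot_it (G := flQ p H)
      (V := {w : Fin N → Qb | ∀ q ∈ van (flQ p H) (cO z), eval w q = 0}) (Δ := Δ)
      (fun w hw hΔw q hq => tot hprim hI hw hΔw hq) (n * i) x (by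
        rw [(hSf x hx).1]
        intro q hq
        exact hq m') (fun j hj h0 => (hSf x hx).2 j hj (by rw [map_mul, h0, zero_mul]))
    exact h1
  have hjac : ∀ x ∈ Sf, eval x (jac (it (flQ p H) (n * i))) ≠ 0 := fun x hx =>
    jac_it_ne (n * i) fun j hj h0 => (hSf x hx).2 j hj (by rw [map_mul, h0, mul_zero])
  have hen := (Finset.equivFinOfCardEq hcard).symm
  have hE1 : 1 ≤ Φ.natDegree ^ (n * i) :=
    Nat.one_le_pow _ _ (lt_of_lt_of_le (Nat.one_le_pow _ _ he) hE)
  have hmain := hMUL N Qb (it (flQ p H) (n * i)) S (Φ.natDegree ^ (n * i))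
    (m ^ (k * i) * S.totalDegree) (fun a => (hen a : Fin N → Qb))
    ((pmap (flQ p H))^[m'] (cO z)) (fun a => by
      rw [pmap_it]
      exact (hSf _ (hen a).2).1) (fun a => hjac _ (hen a).2) hS0
    (fun a => hV _ (hen a).2 S hS) (by
      intro ρ
      obtain ⟨L, hL1, hL2, hL3⟩ := hLNA N Qb (Φ.natDegree ^ (n * i))
        (fun a => (hen a : Fin N → Qb)) (fun a b hab h => hab (hen.injective (Subtype.ext h))) ρ
      refine ⟨L, hL2, hL3, fun ε => ?_⟩
      have hne' : S + C ε * L ≠ 0 := by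
        intro h0
        have h1 := congrArg (eval (hen ⟨0, hE1⟩ : Fin N → Qb)) h0
        rw [map_add, map_mul, eval_C, hV _ (hen ⟨0, hE1⟩).2 S hS, zero_add, map_zero] at h1
        have h2 : ε = 0 := (mul_eq_zero.1 h1).resolve_right (hL2 _)
        rw [h2, C_0, zero_mul, add_zero] at h0
        exact hS0 h0
      obtain ⟨Q, hQ0, hQ1, hQ2⟩ := hKG _ hne'
      refine ⟨Q, hQ0, hQ1.trans (Nat.mul_le_mul_left _ ?_), hQ2⟩
      refine (totalDegree_add _ _).trans (max_le le_rfl ?_)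
      refine (totalDegree_mul _ _).trans ?_
      rw [totalDegree_C, zero_add]
      exact hL1.trans hr)
  refine le_trans ?_ hmain
  calc (m + 1) ^ (k * i) ≤ (e ^ n) ^ (k * i) := Nat.pow_le_pow_left hme _
    _ = (e ^ k) ^ (n * i) := by
        rw [← pow_mul, ← pow_mul]
        congr 1
        ring
    _ ≤ Φ.natDegree ^ (n * i) := Nat.pow_le_pow_left hE _

end Pool.Agent.H10.BIG
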